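import Pool.Agent.Helper72.RA.Defs2

namespace Pool.Agent.Helper72.RA

open Real Finset MeasureTheory Filter

/-! ## Elementary estimates -/

theorem ang_qi_pos {q : ℕ} (hq : 10 ^ 9 ≤ q) (k : ℕ) : 0 < qi q k := by
  unfold qi
  have : (0 : ℝ) < q := by
    have : 0 < q := lt_of_lt_of_le (by norm_num) hq
    exact_mod_cast this
  positivity

theorem ang_qi {q : ℕ} (hq : 10 ^ 9 ≤ q) {a b : ℕ} (h : a < b) :
    10 ^ 9 * qi q b ≤ qi q a := by
  unfold qi
  have h1 : (10 ^ 9 : ℝ) ≤ q := by exact_mod_cast hq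
  have h0 : (0 : ℝ) < q := lt_of_lt_of_le (by norm_num) h1
  have h2 : (q : ℝ) ^ (a + 1) ≤ (q : ℝ) ^ b := pow_le_pow_right₀ (by linarith) h
  have h3 : (q : ℝ) ^ a * 10 ^ 9 ≤ (q : ℝ) ^ b := by
    refine le_trans ?_ h2
    rw [pow_succ]
    exact mul_le_mul_of_nonneg_left h1 (by positivity)
  have h4 : 0 < (q : ℝ) ^ a := by positivity
  have h5 : 0 < (q : ℝ) ^ b := by positivity
  rw [← div_eq_mul_inv, div_le_iff₀ h5, inv_mul_eq_div, le_div_iff₀ h4]
  linarith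

theorem ang_arctan (x : ℝ) (hx : 0 ≤ x) :
    x - x ^ 3 / 3 + x ^ 5 / 5 - x ^ 7 / 7 ≤ arctan x := by
  let f : ℝ → ℝ := fun x => arctan x - (x - x ^ 3 / 3 + x ^ 5 / 5 - x ^ 7 / 7)
  have hd : ∀ x, HasDerivAt f (1 / (1 + x ^ 2) - (1 - 3 * x ^ 2 / 3 + 5 * x ^ 4 / 5 -
      7 * x ^ 6 / 7)) x := by
    intro x
    apply (Real.hasDerivAt_arctan x).sub
    have h1 : HasDerivAt (fun x : ℝ => x) 1 x := hasDerivAt_id x
    have h3 : HasDerivAt (fun x : ℝ => x ^ 3 / 3) (3 * x ^ 2 / 3) x := by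
      have := (hasDerivAt_pow 3 x).div_const 3
      simpa using this
    have h5 : HasDerivAt (fun x : ℝ => x ^ 5 / 5) (5 * x ^ 4 / 5) x := by
      have := (hasDerivAt_pow 5 x).div_const 5
      simpa using this
    have h7 : HasDerivAt (fun x : ℝ => x ^ 7 / 7) (7 * x ^ 6 / 7) x := by
      have := (hasDerivAt_pow 7 x).div_const 7
      simpa using this
    exact ((h1.sub h3).add h5).sub h7
  have hmono : Monotone f := by
    apply monotone_of_deriv_nonneg (fun x => (hd x).differentiableAt)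
    intro x
    rw [(hd x).deriv]
    have h1 : 0 < 1 + x ^ 2 := by positivity
    have h2 : 1 / (1 + x ^ 2) - (1 - 3 * x ^ 2 / 3 + 5 * x ^ 4 / 5 - 7 * x ^ 6 / 7) =
        x ^ 8 / (1 + x ^ 2) := by
      field_simp
      ring
    rw [h2]
    positivity
  have h := hmono hx
  simp only [f, arctan_zero] at h
  linarith

theorem ang_half {t : ℝ} (h0 : 0 ≤ t) (h1 : t ≤ 1) : t / 2 ≤ arctan t := by
  have h := ang_arctan t h0
  have h2 : t ^ 3 ≤ t := by
    calc t ^ 3 ≤ t ^ 1 := pow_le_pow_of_le_one h0 h1 (by norm_num)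
      _ = t := pow_one t
  have h3 : t ^ 7 ≤ t ^ 5 := pow_le_pow_of_le_one h0 h1 (by norm_num)
  have h4 : 0 ≤ t ^ 5 := by positivity
  linarith

theorem ang_sqrt {x : ℝ} (hx : 0 ≤ x) : √(1 + x ^ 2) ≤ 1 + x := by
  rw [Real.sqrt_le_left (by linarith)]
  nlinarith

theorem ang_sin_lo {x0 x : ℝ} (h0 : 0 ≤ x0) (h : x0 ≤ x) :
    x0 / (1 + x0) ≤ sin (arctan x) := by
  have h1 : sin (arctan x0) ≤ sin (arctan x) := by
    apply sin_le_sin_of_le_of_le_pi_div_two
    · exact (neg_pi_div_two_lt_arctan x0).le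
    · exact (arctan_lt_pi_div_two x).le
    · exact arctan_mono h
  refine le_trans ?_ h1
  rw [sin_arctan]
  have h2 : 0 < √(1 + x0 ^ 2) := by positivity
  exact div_le_div_of_nonneg_left h0 h2 (ang_sqrt h0)

theorem ang_sin_hi {x : ℝ} (h0 : 0 ≤ x) : sin (arctan x) ≤ x := by
  rw [sin_arctan]
  apply div_le_self h0
  rw [Real.one_le_sqrt]
  nlinarith

theorem ang_cos_lo {x : ℝ} (h0 : 0 ≤ x) : 1 / (1 + x) ≤ cos (arctan x) := by
  rw [cos_arctan]
  have h2 : 0 < √(1 + x ^ 2) := by positivity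
  exact div_le_div_of_nonneg_left (by norm_num) h2 (ang_sqrt h0)

/-! ## The ratios -/

theorem ang_ratio {q m : ℕ} (hq : 10 ^ 9 ≤ q)
    (hlow : ∀ u < u0 q, (Pl q u : ℝ) ≤ 3 * (q : ℝ) ^ 20)
    (hmono : ∀ u v, u ≤ v → Pl q u ≤ Pl q v)
    (hU2 : (Pl q (UU q) : ℝ) ≤ 6 * (q : ℝ) ^ 1350) (D : Lay q m) (k : D.K) (hk : k ≠ D.sv) :
    0 < D.pos k ∧ 0 < D.rad k ∧ D.pos k ≤ 7 * (q : ℝ) ^ 1350 * D.rad k ∧
      D.rad k ≤ ((q : ℝ) ^ 22 + 1) * D.pos k ∧
      (¬ high D k → D.pos k ≤ 14 * (q : ℝ) ^ 20 * D.rad k) := by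
  have hQ : (10 ^ 9 : ℝ) ≤ q := by exact_mod_cast hq
  have hQ1 : (1 : ℝ) ≤ q := by linarith
  have p22 : (10 ^ 9 : ℝ) ≤ (q : ℝ) ^ 22 := by
    calc (10 ^ 9 : ℝ) ≤ q := hQ
      _ = (q : ℝ) ^ 1 := (pow_one _).symm
      _ ≤ (q : ℝ) ^ 22 := pow_le_pow_right₀ hQ1 (by norm_num)
  have p20 : (10 ^ 9 : ℝ) ≤ (q : ℝ) ^ 20 := by
    calc (10 ^ 9 : ℝ) ≤ q := hQ
      _ = (q : ℝ) ^ 1 := (pow_one _).symm
      _ ≤ (q : ℝ) ^ 20 := pow_le_pow_right₀ hQ1 (by norm_num)
  have p10 : (q : ℝ) ^ 10 ≤ (q : ℝ) ^ 20 := pow_le_pow_right₀ hQ1 (by norm_num)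
  have p1350 : 10 ^ 9 * (q : ℝ) ^ 20 ≤ (q : ℝ) ^ 1350 := by
    calc 10 ^ 9 * (q : ℝ) ^ 20 ≤ q * (q : ℝ) ^ 20 :=
          mul_le_mul_of_nonneg_right hQ (by positivity)
      _ = (q : ℝ) ^ 21 := by rw [← pow_succ']
      _ ≤ (q : ℝ) ^ 1350 := pow_le_pow_right₀ hQ1 (by norm_num)
  have hr := D.hr k
  generalize (q : ℝ) ^ 1350 = R at *
  generalize (q : ℝ) ^ 20 = Z at *
  generalize (q : ℝ) ^ 22 = Y at *
  have hcase : D.ty k = Ty.h0 ∨ D.ty k = Ty.xp ∨ D.ty k = Ty.x0 ∨ D.ty k = Ty.h ∨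
      D.ty k = Ty.g ∨ D.ty k = Ty.v := by
    have : D.ty k ≠ Ty.s := fun h => hk ((D.ty_s k).mp h)
    cases h : D.ty k <;> simp_all
  have hx : D.ty k = Ty.h0 ∨ D.ty k = Ty.xp ∨ D.ty k = Ty.x0 → 0 < D.pos k ∧ 0 < D.rad k ∧
      D.pos k ≤ 7 * R * D.rad k ∧ D.rad k ≤ (Y + 1) * D.pos k ∧
      (¬ high D k → D.pos k ≤ 14 * Z * D.rad k) := by
    intro h
    obtain ⟨h1, h2, h3⟩ := D.xr k h
    rw [h1]
    refine ⟨by norm_num, by linarith, by nlinarith, by nlinarith, fun _ => by nlinarith⟩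
  rcases hcase with h | h | h | h | h | h
  · exact hx (Or.inl h)
  · exact hx (Or.inr (Or.inl h))
  · exact hx (Or.inr (Or.inr h))
  · obtain ⟨h1, h2, h3, h4⟩ := hr h
    refine ⟨by linarith, by linarith, by nlinarith, by nlinarith, fun _ => by nlinarith⟩
  · obtain ⟨h1, h2, h3⟩ := D.gr k h
    have h5 : (Pl q (D.lev k) : ℝ) ≤ Pl q (UU q) := by
      exact_mod_cast hmono _ _ (D.lev_g k h)
    have h6 : (0 : ℝ) ≤ Pl q (D.lev k) := by positivity
    rw [h1]
    refine ⟨by linarith, by linarith, by nlinarith, by nlinarith, fun hh => ?_⟩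
    have h7 : D.lev k < u0 q := by
      by_contra hcon
      exact hh ⟨h, not_lt.mp hcon⟩
    have h8 := hlow _ h7
    nlinarith
  · obtain ⟨h1, h2, h3⟩ := D.vr k h
    have h4 : (D.lev k : ℝ) ≤ 2 := by
      have := D.lev_v k h
      exact_mod_cast (by omega : D.lev k ≤ 2)
    have h5 : (0 : ℝ) ≤ (D.lev k : ℝ) := by positivity
    have h6 : (0 : ℝ) ≤ (q : ℝ) ^ 10 := by positivity
    have h7 : (D.lev k : ℝ) * (q : ℝ) ^ 10 ≤ 2 * Z := by nlinarith
    have h8 : 0 ≤ (D.lev k : ℝ) * (q : ℝ) ^ 10 := by positivity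
    rw [h1]
    refine ⟨by linarith, by linarith, by nlinarith, by nlinarith, fun _ => by nlinarith⟩

/-- the angles are close to the nominal angles -/
theorem ang_near {q m : ℕ} (hq : 10 ^ 9 ≤ q) (D : Lay q m) {θ : Fin (NN m) → ℝ}
    {ta : D.K → Fin (NN m)} (hta : WinOK D θ ta) (k : D.K) (hk : k ≠ D.sv) :
    |θ (ta k) - arctan (D.rad k / D.pos k)| ≤ qi q 1394 := by
  have h1 := hta k hk
  have h2 := abs_le.mp (D.win1 k hk)
  have h3 := ang_qi hq (show 1394 < 1395 by norm_num)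
  have h4 := ang_qi hq (show 1395 < 1401 by norm_num)
  have h5 := ang_qi_pos hq 1395
  have h6 := ang_qi_pos hq 1401
  rw [abs_le]
  constructor
  · linarith
  · linarith

theorem st_ANG (hLEV : ST_LEV) : ST_ANG := by
  refine hLEV.mono fun q hq m _ _ D => ?_
  obtain ⟨hq9, hlow, hu0, huU, -, -, hmono, -, hU1, hU2, -, -, -, -⟩ := hq
  have hQ : (10 ^ 9 : ℝ) ≤ q := by exact_mod_cast hq9
  have hQ1 : (1 : ℝ) ≤ q := by linarith
  have hratio := ang_ratio hq9 hlow hmono hU2 D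
  have hqi22 : (q : ℝ) ^ 22 * qi q 22 = 1 := by
    unfold qi
    exact mul_inv_cancel₀ (by positivity)
  have hqi20 : (q : ℝ) ^ 20 * qi q 20 = 1 := by
    unfold qi
    exact mul_inv_cancel₀ (by positivity)
  have hqi1350 : (q : ℝ) ^ 1350 * qi q 1350 = 1 := by
    unfold qi
    exact mul_inv_cancel₀ (by positivity)
  have p22 : (10 ^ 9 : ℝ) ≤ (q : ℝ) ^ 22 := by
    calc (10 ^ 9 : ℝ) ≤ q := hQ
      _ = (q : ℝ) ^ 1 := (pow_one _).symm
      _ ≤ (q : ℝ) ^ 22 := pow_le_pow_right₀ hQ1 (by norm_num)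
  have p20 : (10 ^ 9 : ℝ) ≤ (q : ℝ) ^ 20 := by
    calc (10 ^ 9 : ℝ) ≤ q := hQ
      _ = (q : ℝ) ^ 1 := (pow_one _).symm
      _ ≤ (q : ℝ) ^ 20 := pow_le_pow_right₀ hQ1 (by norm_num)
  have p1350 : (10 ^ 9 : ℝ) ≤ (q : ℝ) ^ 1350 := by
    calc (10 ^ 9 : ℝ) ≤ q := hQ
      _ = (q : ℝ) ^ 1 := (pow_one _).symm
      _ ≤ (q : ℝ) ^ 1350 := pow_le_pow_right₀ hQ1 (by norm_num)
  have q1401 := ang_qi_pos hq9 1401
  have q1395 := ang_qi_pos hq9 1395
  have q1394 := ang_qi_pos hq9 1394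
  have q22 := ang_qi_pos hq9 22
  have q20 := ang_qi_pos hq9 20
  have c1 := ang_qi hq9 (show 1395 < 1401 by norm_num)
  have c2 := ang_qi hq9 (show 1394 < 1395 by norm_num)
  have c3 := ang_qi hq9 (show 1352 < 1394 by norm_num)
  have c4 := ang_qi hq9 (show 1350 < 1352 by norm_num)
  have c5 := ang_qi hq9 (show 23 < 1350 by norm_num)
  have c6 := ang_qi hq9 (show 22 < 23 by norm_num)
  have c7 := ang_qi hq9 (show 20 < 22 by norm_num)
  have c8 := ang_qi hq9 (show 0 < 20 by norm_num)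
  have c9 : qi q 0 = 1 := by simp [qi]
  rw [c9] at c8
  -- upper bound for the nominal angle
  have hup : ∀ k, k ≠ D.sv → arctan (D.rad k / D.pos k) ≤ π / 2 - 2 * qi q 23 := by
    intro k hk
    obtain ⟨h1, h2, -, h4, -⟩ := hratio k hk
    have h5 : D.rad k / D.pos k ≤ (q : ℝ) ^ 22 + 1 := by
      rw [div_le_iff₀ h1]; exact h4
    have hy : (0 : ℝ) < (q : ℝ) ^ 22 + 1 := by linarith
    have h6 := arctan_inv_of_pos hy
    have h7 : ((q : ℝ) ^ 22 + 1)⁻¹ ≤ 1 := inv_le_one_of_one_le₀ (by linarith)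
    have h8 := ang_half (inv_pos.mpr hy).le h7
    have h9 : qi q 22 / 2 ≤ ((q : ℝ) ^ 22 + 1)⁻¹ := by
      rw [← one_div, le_div_iff₀ hy]
      nlinarith
    have h10 := arctan_mono h5
    linarith
  have hdown : ∀ k, k ≠ D.sv → qi q 1350 / 15 ≤ sin (arctan (D.rad k / D.pos k)) := by
    intro k hk
    obtain ⟨h1, h2, h3, -, -⟩ := hratio k hk
    have h5 : qi q 1350 / 7 ≤ D.rad k / D.pos k := by
      rw [le_div_iff₀ h1]
      have : qi q 1350 / 7 * D.pos k ≤ qi q 1350 / 7 * (7 * (q : ℝ) ^ 1350 * D.rad k) :=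
        mul_le_mul_of_nonneg_left h3 (by linarith)
      refine this.trans (le_of_eq ?_)
      have : qi q 1350 / 7 * (7 * (q : ℝ) ^ 1350 * D.rad k) =
        ((q : ℝ) ^ 1350 * qi q 1350) * D.rad k := by ring
      rw [this, hqi1350, one_mul]
    have h6 := ang_sin_lo (by linarith : 0 ≤ qi q 1350 / 7) h5
    refine le_trans ?_ h6
    rw [le_div_iff₀ (by linarith)]
    nlinarith
  have hcoslo : ∀ k, k ≠ D.sv → qi q 22 / 3 ≤ cos (arctan (D.rad k / D.pos k)) := by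
    intro k hk
    obtain ⟨h1, h2, -, h4, -⟩ := hratio k hk
    have h5 : D.rad k / D.pos k ≤ (q : ℝ) ^ 22 + 1 := by
      rw [div_le_iff₀ h1]; exact h4
    have h0 : 0 ≤ D.rad k / D.pos k := by positivity
    refine le_trans ?_ (ang_cos_lo h0)
    rw [le_div_iff₀ (by linarith)]
    nlinarith
  refine ⟨?_, ?_⟩
  · intro k hk
    have h1 := abs_le.mp (D.win1 k hk)
    have h2 := hup k hk
    linarith
  intro θ ta hta
  have hnear := fun k hk => ang_near hq9 D hta k hk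
  have hsin : ∀ k, k ≠ D.sv → |sin (θ (ta k)) - sin (arctan (D.rad k / D.pos k))| ≤
      qi q 1394 := fun k hk => (abs_sin_sub_sin_le _ _).trans (hnear k hk)
  have hcos : ∀ k, k ≠ D.sv → |cos (θ (ta k)) - cos (arctan (D.rad k / D.pos k))| ≤
      qi q 1394 := fun k hk => (abs_cos_sub_cos_le _ _).trans (hnear k hk)
  have hB : ∀ k, k ≠ D.sv → ¬ high D k →
      qi q 20 / 15 ≤ sin (θ (ta k)) ∧ qi q 23 ≤ cos (θ (ta k)) := by
    intro k hk hh
    obtain ⟨h1, h2, -, -, h3⟩ := hratio k hk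
    have h3 := h3 hh
    have h4 := abs_le.mp (hsin k hk)
    have h5 := abs_le.mp (hcos k hk)
    have h6 := hcoslo k hk
    have h7 : qi q 20 / 14 ≤ D.rad k / D.pos k := by
      rw [le_div_iff₀ h1]
      have : qi q 20 / 14 * D.pos k ≤ qi q 20 / 14 * (14 * (q : ℝ) ^ 20 * D.rad k) :=
        mul_le_mul_of_nonneg_left h3 (by linarith)
      refine this.trans (le_of_eq ?_)
      have : qi q 20 / 14 * (14 * (q : ℝ) ^ 20 * D.rad k) =
        ((q : ℝ) ^ 20 * qi q 20) * D.rad k := by ring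
      rw [this, hqi20, one_mul]
    have h8 := ang_sin_lo (by linarith : 0 ≤ qi q 20 / 14) h7
    have h9 : qi q 20 / 145 * 10 ≤ qi q 20 / 14 / (1 + qi q 20 / 14) := by
      rw [le_div_iff₀ (by linarith)]
      nlinarith
    constructor
    · linarith
    · linarith
  have hC : ∀ k, high D k → 98 / 100 / (Pl q (D.lev k) : ℝ) ≤ sin (θ (ta k)) ∧
        sin (θ (ta k)) ≤ 112 / 100 / (Pl q (D.lev k) : ℝ) ∧ 99 / 100 ≤ cos (θ (ta k)) := by
    intro k hh
    have hk : k ≠ D.sv := by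
      intro h
      have h1 := (D.ty_s k).mpr h
      have h2 := hh.1
      rw [h1] at h2
      exact Ty.noConfusion h2
    have h4 := abs_le.mp (hsin k hk)
    have h5 := abs_le.mp (hcos k hk)
    obtain ⟨g1, g2, g3⟩ := D.gr k hh.1
    have hP1 : 3 * (q : ℝ) ^ 20 ≤ (Pl q (D.lev k) : ℝ) := by
      refine hu0.trans ?_
      exact_mod_cast hmono _ _ hh.2
    have hP2 : (Pl q (D.lev k) : ℝ) ≤ 6 * (q : ℝ) ^ 1350 := by
      refine le_trans ?_ hU2
      exact_mod_cast hmono _ _ (D.lev_g k hh.1)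
    rw [g1] at h4 h5
    generalize (Pl q (D.lev k) : ℝ) = P at *
    have hP : 0 < P := by linarith
    have hδ : qi q 1394 ≤ 1 / 100 / P := by
      rw [le_div_iff₀ hP]
      have : qi q 1394 * P ≤ qi q 1394 * (6 * (q : ℝ) ^ 1350) :=
        mul_le_mul_of_nonneg_left hP2 q1394.le
      have h10 : qi q 1394 ≤ qi q 1350 / 1000 := by linarith
      have h11 : qi q 1394 * (6 * (q : ℝ) ^ 1350) ≤ qi q 1350 / 1000 * (6 * (q : ℝ) ^ 1350) :=
        mul_le_mul_of_nonneg_right h10 (by positivity)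
      have h12 : qi q 1350 / 1000 * (6 * (q : ℝ) ^ 1350) =
        6 / 1000 * ((q : ℝ) ^ 1350 * qi q 1350) := by ring
      rw [h12, hqi1350] at h11
      linarith
    have h6 : 1 / (1 + P) ≤ D.rad k / (1 + P) := by
      rw [div_le_div_iff_of_pos_right (by linarith)]; exact g2
    have h7 := ang_sin_lo (by positivity : 0 ≤ 1 / (1 + P)) h6
    have h8 : 99 / 100 / P ≤ 1 / (1 + P) / (1 + 1 / (1 + P)) := by
      have : 1 / (1 + P) / (1 + 1 / (1 + P)) = 1 / (2 + P) := by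
        field_simp
        ring
      rw [this, div_le_div_iff₀ hP (by linarith)]
      linarith
    have h9 : D.rad k / (1 + P) ≤ 11 / 10 / P := by
      rw [div_le_div_iff₀ (by linarith) hP]
      nlinarith
    have h0 : 0 ≤ D.rad k / (1 + P) := by positivity
    have h10 := ang_sin_hi h0
    have h11 := ang_cos_lo h0
    have h12 : 995 / 1000 ≤ 1 / (1 + D.rad k / (1 + P)) := by
      rw [le_div_iff₀ (by linarith)]
      have : 11 / 10 / P ≤ 1 / 1000 := by
        rw [div_le_div_iff₀ hP (by norm_num)]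
        linarith
      linarith
    have e1 : 98 / 100 / P = 99 / 100 / P - 1 / 100 / P := by ring
    have e2 : 112 / 100 / P = 11 / 10 / P + 2 * (1 / 100 / P) := by ring
    refine ⟨?_, ?_, ?_⟩
    · rw [e1]; linarith
    · rw [e2]; linarith
    · linarith
  refine ⟨?_, hB, hC, ?_, ?_, ?_⟩
  · intro k hk
    have h1 := abs_le.mp (hnear k hk)
    have h2 := hup k hk
    have h3 := hdown k hk
    have h4 := sin_le (arctan_nonneg.mpr (by
      obtain ⟨h1, h2, -⟩ := hratio k hk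
      positivity : 0 ≤ D.rad k / D.pos k))
    refine ⟨hnear k hk, by linarith, by linarith, hcos k hk⟩
  · intro g i hg hi hgi
    obtain ⟨-, h1, -⟩ := hC g hg
    have hPg : (0 : ℝ) < Pl q (D.lev g) := by
      have : 3 * (q : ℝ) ^ 20 ≤ (Pl q (D.lev g) : ℝ) := by
        refine hu0.trans ?_
        exact_mod_cast hmono _ _ hg.2
      linarith
    by_cases hih : high D i
    · obtain ⟨h2, -, -⟩ := hC i hih
      have h3 : (Pl q (D.lev i) : ℝ) ≤ Pl q (D.lev g) := by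
        exact_mod_cast hmono _ _ (hgi hih)
      have hPi : (0 : ℝ) < Pl q (D.lev i) := by
        have : 3 * (q : ℝ) ^ 20 ≤ (Pl q (D.lev i) : ℝ) := by
          refine hu0.trans ?_
          exact_mod_cast hmono _ _ hih.2
        linarith
      have h4 : 98 / 100 / (Pl q (D.lev g) : ℝ) ≤ 98 / 100 / (Pl q (D.lev i) : ℝ) :=
        div_le_div_of_nonneg_left (by norm_num) hPi h3
      have e1 : 112 / 100 / (Pl q (D.lev g) : ℝ) = 112 / 98 * (98 / 100 / (Pl q (D.lev g) : ℝ)) := by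
        ring
      have h5 : 0 ≤ 98 / 100 / (Pl q (D.lev g) : ℝ) := by positivity
      linarith
    · obtain ⟨h2, -⟩ := hB i hi hih
      have hP1 : 3 * (q : ℝ) ^ 20 ≤ (Pl q (D.lev g) : ℝ) := by
        refine hu0.trans ?_
        exact_mod_cast hmono _ _ hg.2
      have h3 : 112 / 100 / (Pl q (D.lev g) : ℝ) ≤ 112 / 300 * qi q 20 := by
        rw [div_le_iff₀ hPg]
        have : 112 / 300 * qi q 20 * (3 * (q : ℝ) ^ 20) ≤ 112 / 300 * qi q 20 * Pl q (D.lev g) :=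
          mul_le_mul_of_nonneg_left hP1 (by positivity)
        have e : 112 / 300 * qi q 20 * (3 * (q : ℝ) ^ 20) =
          112 / 100 * ((q : ℝ) ^ 20 * qi q 20) := by ring
        rw [e, hqi20] at this
        linarith
      linarith
  · intro k hk
    obtain ⟨h1, h2, h3⟩ := D.xr k hk
    have hks : k ≠ D.sv := by
      intro h
      have h5 := (D.ty_s k).mpr h
      rw [h5] at hk
      rcases hk with hk | hk | hk <;> exact Ty.noConfusion hk
    have h4 := abs_le.mp (hnear k hks)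
    rw [h1, div_one] at h4
    have h5 := ang_arctan (55 / 100) (by norm_num)
    have h6 := arctan_mono h2
    have h7 := arctan_mono h3
    have h8 := arctan_inv_of_pos (show (0 : ℝ) < 155 / 100 by norm_num)
    have h9 := ang_arctan ((155 / 100 : ℝ)⁻¹) (by norm_num)
    rw [h8] at h9
    have h10 := Real.pi_lt_d4
    norm_num at h5 h9 h10 ⊢
    constructor
    · linarith
    · linarith
  · intro k hk hl
    obtain ⟨h1, h2, h3⟩ := D.vr k hk
    have hks : k ≠ D.sv := by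
      intro h
      have h5 := (D.ty_s k).mpr h
      rw [h5] at hk
      exact Ty.noConfusion hk
    rw [hl] at h1
    have h1' : D.pos k = 1 := by rw [h1]; simp
    have h4 := abs_le.mp (hnear k hks)
    rw [h1', div_one] at h4
    have h6 := arctan_mono h2
    have h7 := arctan_mono h3
    rw [arctan_one] at h6
    have h8 := arctan_inv_of_pos (show (0 : ℝ) < 3 by norm_num)
    have h9 := ang_arctan ((3 : ℝ)⁻¹) (by norm_num)
    rw [h8] at h9
    have h10 := Real.pi_lt_d4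
    have h11 := Real.pi_gt_d4
    norm_num at h9 h10 h11 ⊢
    constructor
    · linarith
    · linarith

end Pool.Agent.Helper72.RA
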