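import Pool.Agent.Helper72.RA.Defs2

namespace Pool.Agent.Helper72.RA

open Real Finset MeasureTheory Filter

theorem lev_clog (q : ℕ) (hq : 10 ^ 9 ≤ q) : 1341 * Nat.clog 2 q + 8 ≤ q := by
  have hs1 : Nat.sqrt q * Nat.sqrt q ≤ q := Nat.sqrt_le q
  have hs2 : q < (Nat.sqrt q + 1) * (Nat.sqrt q + 1) := Nat.lt_succ_sqrt q
  have hs3 : 31622 ≤ Nat.sqrt q := by
    by_contra h
    push Not at h
    have : (Nat.sqrt q + 1) * (Nat.sqrt q + 1) ≤ 31622 * 31622 :=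
      Nat.mul_le_mul (by omega) (by omega)
    omega
  have hs4 : Nat.sqrt q + 1 ≤ 2 ^ Nat.sqrt q := Nat.lt_two_pow_self
  have hs5 : q ≤ 2 ^ (Nat.sqrt q + Nat.sqrt q) := by
    rw [pow_add]
    exact hs2.le.trans (Nat.mul_le_mul hs4 hs4)
  have hs6 : Nat.clog 2 q ≤ Nat.sqrt q + Nat.sqrt q := Nat.clog_le_of_le_pow hs5
  have hs7 : 31622 * Nat.sqrt q ≤ Nat.sqrt q * Nat.sqrt q := Nat.mul_le_mul_right _ hs3
  omega

theorem lev_pl (q u : ℕ) : (Pl q u : ℝ) = 3 * (q : ℝ) ^ 9 * 2 ^ u := by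
  unfold Pl
  push_cast
  ring

theorem lev_sum (q n k : ℕ) :
    ∑ u ∈ range k, ((Pl q (n + u) : ℝ))⁻¹ ≤ 2 * ((Pl q n : ℝ))⁻¹ := by
  have h1 : ∀ u, ((Pl q (n + u) : ℝ))⁻¹ = ((Pl q n : ℝ))⁻¹ * (1 / 2) ^ u := by
    intro u
    rw [lev_pl, lev_pl, pow_add, one_div, inv_pow, ← mul_assoc, mul_inv]
  have h2 : (0 : ℝ) ≤ ((Pl q n : ℝ))⁻¹ := by positivity
  rw [Finset.sum_congr rfl fun u _ => h1 u, ← Finset.mul_sum]
  have h3 := mul_le_mul_of_nonneg_left (sum_geometric_two_le k) h2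
  linarith

theorem st_LEV : ST_LEV := by
  refine (eventually_ge_atTop (10 ^ 9)).mono fun q hq => ?_
  have hq1 : 1 < q := lt_of_lt_of_le (by norm_num) hq
  have hq0 : (0 : ℝ) < q := by exact_mod_cast (lt_trans Nat.zero_lt_one hq1)
  have hclog := lev_clog q hq
  have hlow : ∀ u < u0 q, (Pl q u : ℝ) ≤ 3 * (q : ℝ) ^ 20 := by
    intro u hu
    have h1 : 2 ^ u < q ^ 11 := Nat.pow_lt_of_lt_clog hu
    have h2 : (2 : ℝ) ^ u ≤ (q : ℝ) ^ 11 := by exact_mod_cast h1.le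
    rw [lev_pl]
    calc 3 * (q : ℝ) ^ 9 * 2 ^ u ≤ 3 * (q : ℝ) ^ 9 * (q : ℝ) ^ 11 := by gcongr
      _ = 3 * (q : ℝ) ^ 20 := by ring
  have hu0 : 3 * (q : ℝ) ^ 20 ≤ (Pl q (u0 q) : ℝ) := by
    have h1 : q ^ 11 ≤ 2 ^ u0 q := Nat.le_pow_clog (by norm_num) _
    have h2 : (q : ℝ) ^ 11 ≤ (2 : ℝ) ^ u0 q := by exact_mod_cast h1
    rw [lev_pl]
    calc 3 * (q : ℝ) ^ 20 = 3 * (q : ℝ) ^ 9 * (q : ℝ) ^ 11 := by ring
      _ ≤ 3 * (q : ℝ) ^ 9 * 2 ^ u0 q := by gcongr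
  have huU : u0 q ≤ UU q := by
    apply Nat.clog_mono_right
    exact Nat.pow_le_pow_right (lt_trans Nat.zero_lt_one hq1) (by norm_num)
  have hUU : UU q + 8 ≤ q := by
    have h1 : UU q ≤ 1341 * Nat.clog 2 q := by
      apply Nat.clog_le_of_le_pow
      rw [mul_comm, pow_mul]
      exact Nat.pow_le_pow_left (Nat.le_pow_clog (by norm_num) _) _
    omega
  have hnF : nF q ≤ q := by
    unfold nF
    omega
  have hmono : ∀ u v, u ≤ v → Pl q u ≤ Pl q v := by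
    intro u v huv
    unfold Pl
    exact Nat.mul_le_mul_left _ (Nat.pow_le_pow_right (by norm_num) huv)
  have hge : ∀ u, 3 * (q : ℝ) ^ 9 ≤ (Pl q u : ℝ) := by
    intro u
    rw [lev_pl]
    have : (1 : ℝ) ≤ 2 ^ u := one_le_pow₀ (by norm_num)
    have h3 : 0 ≤ 3 * (q : ℝ) ^ 9 := by positivity
    nlinarith
  have hU1 : 3 * (q : ℝ) ^ 1350 ≤ (Pl q (UU q) : ℝ) := by
    have h1 : q ^ 1341 ≤ 2 ^ UU q := Nat.le_pow_clog (by norm_num) _
    have h2 : (q : ℝ) ^ 1341 ≤ (2 : ℝ) ^ UU q := by exact_mod_cast h1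
    rw [lev_pl]
    have h3 : (q : ℝ) ^ 1350 = (q : ℝ) ^ 9 * (q : ℝ) ^ 1341 := by rw [← pow_add]
    rw [h3, ← mul_assoc]
    gcongr
  have hU2 : (Pl q (UU q) : ℝ) ≤ 6 * (q : ℝ) ^ 1350 := by
    have h0 : 1 < q ^ 1341 := Nat.one_lt_pow (by norm_num) hq1
    have h1 : 2 ^ (Nat.clog 2 (q ^ 1341)).pred < q ^ 1341 :=
      Nat.pow_pred_clog_lt_self (by norm_num) h0
    have h1' : 0 < Nat.clog 2 (q ^ 1341) := Nat.clog_pos (by norm_num) h0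
    have h1'' : 2 ^ UU q = 2 ^ (Nat.clog 2 (q ^ 1341)).pred * 2 := by
      rw [← pow_succ]
      congr 1
      exact (Nat.succ_pred_eq_of_pos h1').symm
    have h2 : (2 : ℝ) ^ UU q ≤ 2 * (q : ℝ) ^ 1341 := by
      have : 2 ^ UU q ≤ 2 * q ^ 1341 := by
        rw [h1'', mul_comm]
        exact Nat.mul_le_mul_left _ h1.le
      exact_mod_cast this
    rw [lev_pl]
    have h3 : (q : ℝ) ^ 1350 = (q : ℝ) ^ 9 * (q : ℝ) ^ 1341 := by rw [← pow_add]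
    calc 3 * (q : ℝ) ^ 9 * 2 ^ UU q ≤ 3 * (q : ℝ) ^ 9 * (2 * (q : ℝ) ^ 1341) := by gcongr
      _ = 6 * (q : ℝ) ^ 1350 := by rw [h3]; ring
  have hP : (0 : ℝ) < (Pl q (UU q) : ℝ) := lt_of_lt_of_le (by positivity) hU1
  have hqp : (0 : ℝ) < (q : ℝ) ^ 1350 := by positivity
  refine ⟨hq, hlow, hu0, huU, hUU, hnF, hmono, hge, hU1, hU2, ?_, ?_, ?_, ?_⟩
  · unfold top qi
    rw [inv_eq_one_div, div_div, div_le_div_iff₀ (by positivity) hP]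
    linarith
  · unfold top qi
    rw [inv_eq_one_div, div_div, div_div, div_le_div_iff₀ (by positivity) (by positivity)]
    linarith
  · have h1 := lev_sum q 0 (UU q + 1)
    have h2 : ∑ u ∈ range (UU q + 1), ((Pl q (0 + u) : ℝ))⁻¹ =
        ∑ u ∈ range (UU q + 1), ((Pl q u : ℝ))⁻¹ :=
      Finset.sum_congr rfl fun u _ => by rw [zero_add]
    rw [h2] at h1
    refine h1.trans (le_of_eq ?_)
    rw [lev_pl, pow_zero, mul_one, mul_inv]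
    unfold qi
    ring
  · have h0 : (range (UU q + 1)).filter (fun u => u0 q ≤ u) = Finset.Ico (u0 q) (UU q + 1) := by
      ext u
      simp only [Finset.mem_filter, Finset.mem_range, Finset.mem_Ico]
      omega
    rw [h0, Finset.sum_Ico_eq_sum_range]
    refine (lev_sum q (u0 q) _).trans ?_
    have h1 : ((Pl q (u0 q) : ℝ))⁻¹ ≤ (3 * (q : ℝ) ^ 20)⁻¹ :=
      inv_anti₀ (by positivity) hu0
    rw [mul_inv] at h1
    unfold qi
    linarith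

end Pool.Agent.Helper72.RA
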