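import Pool.Agent.Helper72.RA.Defs2

namespace Pool.Agent.Helper72.RA

open Real Finset MeasureTheory Filter

open scoped Classical

theorem nar_qi_pos {q : ℕ} (hq : 10 ^ 9 ≤ q) (k : ℕ) : 0 < qi q k := by
  unfold qi
  have : (0 : ℝ) < q := by
    have : 0 < q := lt_of_lt_of_le (by norm_num) hq
    exact_mod_cast this
  positivity

theorem nar_qi {q : ℕ} (hq : 10 ^ 9 ≤ q) {a b : ℕ} (h : a < b) :
    10 ^ 9 * qi q b ≤ qi q a := by
  unfold qi
  have h1 : (10 ^ 9 : ℝ) ≤ q := by exact_mod_cast hq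
  have h0 : (0 : ℝ) < q := lt_of_lt_of_le (by norm_num) h1
  have h2 : (q : ℝ) ^ (a + 1) ≤ (q : ℝ) ^ b := pow_le_pow_right₀ (by linarith) h
  have h3 : (q : ℝ) ^ a * 10 ^ 9 ≤ (q : ℝ) ^ b := by
    refine le_trans ?_ h2
    rw [pow_succ]
    exact mul_le_mul_of_nonneg_left h1 (by positivity)
  have h4 : 0 < (q : ℝ) ^ a := by positivity
  have h5 : 0 < (q : ℝ) ^ b := by positivity
  rw [← div_eq_mul_inv, div_le_iff₀ h5, inv_mul_eq_div, le_div_iff₀ h4]
  linarith

/-- the nominal angle at `O` increases at least at rate `1 / 8` -/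
theorem nar_gap {γ a a' : ℝ} (hγ : 0 < sin γ) (hc : 99 / 100 ≤ cos γ) (ha : 0 < a)
    (haa : a ≤ a') (ha' : a' < π / 2) (hs : sin γ ≤ 6 * sin a) :
    1 / 8 * (a' - a) ≤ arccos (cos a' * cos γ) - arccos (cos a * cos γ) := by
  have hc1 : cos γ < 1 := by
    have h1 := sin_sq_add_cos_sq γ
    nlinarith
  have hder : ∀ x ∈ Set.Icc a a', HasDerivAt (fun x => arccos (cos x * cos γ))
      (-(1 / √(1 - (cos x * cos γ) ^ 2)) * (-sin x * cos γ)) x := by
    intro x hx
    have hx0 : 0 < cos x := cos_pos_of_mem_Ioo ⟨by linarith [hx.1, pi_pos], by linarith [hx.2]⟩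
    have hx1 : cos x ≤ 1 := cos_le_one x
    have h1 : HasDerivAt (fun x => cos x * cos γ) (-sin x * cos γ) x :=
      (hasDerivAt_cos x).mul_const _
    have h2 := hasDerivAt_arccos (x := cos x * cos γ) (by nlinarith) (by nlinarith)
    exact HasDerivAt.comp (h₂ := arccos) x h2 h1
  apply Convex.mul_sub_le_image_sub_of_le_deriv (convex_Icc a a')
  · exact (continuous_arccos.comp (continuous_cos.mul continuous_const)).continuousOn
  · intro x hx
    rw [interior_Icc] at hx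
    exact (hder x ⟨hx.1.le, hx.2.le⟩).differentiableAt.differentiableWithinAt
  · intro x hx
    rw [interior_Icc] at hx
    have hx' : x ∈ Set.Icc a a' := ⟨hx.1.le, hx.2.le⟩
    rw [(hder x hx').deriv]
    have hx0 : 0 < cos x := cos_pos_of_mem_Ioo ⟨by linarith [hx.1, pi_pos], by linarith [hx.2]⟩
    have hx1 : cos x ≤ 1 := cos_le_one x
    have hsx : sin a ≤ sin x :=
      sin_le_sin_of_le_of_le_pi_div_two (by linarith [pi_pos]) (by linarith [hx.2]) hx.1.le
    have hsx0 : 0 < sin x := by linarith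
    have hlt : cos x * cos γ < 1 := by nlinarith
    have hS : 0 < 1 - (cos x * cos γ) ^ 2 := by
      have : 0 < cos x * cos γ := by positivity
      nlinarith
    have hsq : √(1 - (cos x * cos γ) ^ 2) ≤ sin x + sin γ := by
      rw [Real.sqrt_le_left (by linarith)]
      have h1 := sin_sq_add_cos_sq γ
      have h2 := sin_sq_add_cos_sq x
      have h3 : (cos x * cos γ) ^ 2 = (1 - sin x ^ 2) * (1 - sin γ ^ 2) := by
        have h4 : cos γ ^ 2 = 1 - sin γ ^ 2 := by linarith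
        have h5 : cos x ^ 2 = 1 - sin x ^ 2 := by linarith
        rw [mul_pow, h4, h5]
      rw [h3]
      nlinarith [mul_pos hsx0 hγ, sq_nonneg (sin x * sin γ)]
    have hsq0 : 0 < √(1 - (cos x * cos γ) ^ 2) := Real.sqrt_pos.mpr hS
    have e : -(1 / √(1 - (cos x * cos γ) ^ 2)) * (-sin x * cos γ) =
        (sin x * cos γ) / √(1 - (cos x * cos γ) ^ 2) := by
      ring
    rw [e, le_div_iff₀ hsq0]
    nlinarith
  · exact ⟨le_rfl, haa⟩
  · exact ⟨haa, le_rfl⟩
  · exact haa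

theorem st_NARROW (hANG : ST_ANG) (hPACK : ST_PACK) : ST_NARROW := by
  refine (hANG.and (eventually_ge_atTop (10 ^ 9))).mono fun q hq m hm1 hm2 D θ ta hta g hg x l
    hl => ?_
  obtain ⟨hq, hq9⟩ := hq
  obtain ⟨-, h⟩ := hq m hm1 hm2 D
  obtain ⟨hN, -, hH, hG, -, -⟩ := h θ ta hta
  have hQ : (10 ^ 9 : ℝ) ≤ q := by exact_mod_cast hq9
  have hQ1 : (1 : ℝ) ≤ q := by linarith
  have hm0 : (0 : ℝ) < m := by
    have : (0 : ℝ) < (q : ℝ) ^ 1000 := by positivity
    have h2 : ((q ^ 1000 : ℕ) : ℝ) ≤ m := by exact_mod_cast hm1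
    push_cast at h2
    linarith
  have hg' : g ≠ D.sv := by
    intro h
    have h1 := (D.ty_s g).mpr h
    have h2 := hg.1
    rw [h1] at h2
    exact Ty.noConfusion h2
  set M : ℝ := (m : ℝ) * (q : ℝ) ^ 11 with hM
  have hM0 : 0 < M := by positivity
  obtain ⟨s1, -, s3⟩ := hH g hg
  have hsg : 0 < sin (θ (ta g)) := by
    obtain ⟨-, h1, h2, -⟩ := hN g hg'
    apply sin_pos_of_pos_of_lt_pi
    · exact lt_of_lt_of_le (nar_qi_pos hq9 _) h1
    · have := nar_qi_pos hq9 23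
      linarith [pi_pos]
  -- separation in one class
  have hδ : 2 * qi q 1394 ≤ 1 / 3 * M⁻¹ := by
    have h1 : M ≤ 2 * (q : ℝ) ^ 1011 := by
      have h2 : (m : ℝ) ≤ ((2 * q ^ 1000 : ℕ) : ℝ) := by exact_mod_cast hm2
      push_cast at h2
      have h3 : (q : ℝ) ^ 1011 = (q : ℝ) ^ 1000 * (q : ℝ) ^ 11 := by rw [← pow_add]
      rw [hM, h3]
      have : (0 : ℝ) ≤ (q : ℝ) ^ 11 := by positivity
      nlinarith
    have h2 : (2 * (q : ℝ) ^ 1011)⁻¹ ≤ M⁻¹ := inv_anti₀ hM0 h1
    have h3 : (2 * (q : ℝ) ^ 1011)⁻¹ = 1 / 2 * qi q 1011 := by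
      rw [mul_inv]
      unfold qi
      ring
    have h4 := nar_qi hq9 (show 1011 < 1394 by norm_num)
    have h5 := nar_qi_pos hq9 1394
    linarith
  have hsep : ∀ i j : D.K, i ≠ j → i ≠ D.sv → j ≠ D.sv → (high D i → D.lev i ≤ D.lev g) →
      θ (ta i) ≤ θ (ta j) → D.cno i = D.cno j →
      1 / 12 * M⁻¹ ≤ |arccos (cos (θ (ta i)) * cos (θ (ta g))) -
        arccos (cos (θ (ta j)) * cos (θ (ta g)))| := by
    intro i j hij hi hj hil hle hc
    have h1 := D.sep1 i j hij hi hj hc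
    obtain ⟨i1, i2, i3, -⟩ := hN i hi
    obtain ⟨j1, j2, j3, -⟩ := hN j hj
    have h2 := nar_gap hsg s3 (lt_of_lt_of_le (nar_qi_pos hq9 _) i2) hle
      (by have := nar_qi_pos hq9 23; linarith) (hG g i hg hi hil)
    have h3 : 2 / 3 * M⁻¹ ≤ θ (ta j) - θ (ta i) := by
      have h4 : M⁻¹ ≤ |arctan (D.rad i / D.pos i) - arctan (D.rad j / D.pos j)| := h1
      have e : arctan (D.rad i / D.pos i) - arctan (D.rad j / D.pos j) =
        -(θ (ta i) - arctan (D.rad i / D.pos i)) + (θ (ta j) - arctan (D.rad j / D.pos j)) +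
          (θ (ta i) - θ (ta j)) := by ring
      rw [e] at h4
      have h5 := (abs_add_le _ _).trans (add_le_add_left (abs_add_le (-(θ (ta i) -
        arctan (D.rad i / D.pos i))) (θ (ta j) - arctan (D.rad j / D.pos j)))
          (|θ (ta i) - θ (ta j)|))
      rw [abs_neg] at h5
      rw [abs_sub_comm (θ (ta i)) (θ (ta j)), abs_of_nonneg (sub_nonneg.mpr hle)] at h5
      linarith
    rw [abs_sub_comm]
    refine le_trans ?_ (le_abs_self _)
    linarith
  -- the classes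
  have hclass : ∀ c ∈ range (q ^ 3), (((univ.filter fun i : D.K => i ≠ g ∧ i ≠ D.sv ∧
      (high D i → D.lev i ≤ D.lev g) ∧
        |arccos (cos (θ (ta i)) * cos (θ (ta g))) - x| ≤ l).filter
          (fun i => D.cno i = c)).card : ℝ) ≤ 1 + 24 * l * M := by
    intro c _
    have h1 := hPACK D.K ((univ.filter fun i : D.K => i ≠ g ∧ i ≠ D.sv ∧
      (high D i → D.lev i ≤ D.lev g) ∧
        |arccos (cos (θ (ta i)) * cos (θ (ta g))) - x| ≤ l).filter
          (fun i => D.cno i = c)) (fun i => arccos (cos (θ (ta i)) * cos (θ (ta g)))) x l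
          (1 / 12 * M⁻¹) (by positivity) hl ?_ ?_
    · refine h1.trans (le_of_eq ?_)
      rw [mul_comm (1 / 12 : ℝ), ← div_div, div_inv_eq_mul]
      ring
    · intro i hi
      rw [Finset.mem_filter, Finset.mem_filter] at hi
      exact hi.1.2.2.2.2
    · intro i hi j hj hij
      rw [Finset.mem_filter, Finset.mem_filter] at hi hj
      rcases le_total (θ (ta i)) (θ (ta j)) with hle | hle
      · exact hsep i j hij hi.1.2.2.1 hj.1.2.2.1 hi.1.2.2.2.1 hle (hi.2.trans hj.2.symm)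
      · rw [abs_sub_comm]
        exact hsep j i hij.symm hj.1.2.2.1 hi.1.2.2.1 hj.1.2.2.2.1 hle (hj.2.trans hi.2.symm)
  have hfib := Finset.card_eq_sum_card_fiberwise (f := fun i : D.K => D.cno i)
    (s := univ.filter fun i : D.K => i ≠ g ∧ i ≠ D.sv ∧ (high D i → D.lev i ≤ D.lev g) ∧
        |arccos (cos (θ (ta i)) * cos (θ (ta g))) - x| ≤ l) (t := range (q ^ 3)) (by
      intro i _
      exact Finset.mem_coe.mpr (Finset.mem_range.mpr (D.cno_lt i)))
  rw [hfib]
  push_cast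
  refine (Finset.sum_le_sum hclass).trans (le_of_eq ?_)
  rw [Finset.sum_const, Finset.card_range, nsmul_eq_mul]
  push_cast
  ring

end Pool.Agent.Helper72.RA
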