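import Pool.Agent.Helper72.RA.Defs2

namespace Pool.Agent.Helper72.RA

open Real Finset MeasureTheory Filter

theorem st_PACK : ST_PACK := by
  intro ι s f x l δ hδ hl hs hsep
  have h1 : s.card ≤ (range (⌊2 * l / δ⌋₊ + 1)).card := by
    apply Finset.card_le_card_of_injOn (fun i => ⌊(f i - (x - l)) / δ⌋₊)
    · intro i hi
      rw [Finset.coe_range, Set.mem_Iio]
      have h2 := abs_le.mp (hs i hi)
      apply Nat.lt_succ_of_le
      apply Nat.floor_le_floor
      apply (div_le_div_iff_of_pos_right hδ).mpr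
      linarith
    · intro i hi j hj hij
      by_contra hne
      have h2 := hsep i hi j hj hne
      have h3 := abs_le.mp (hs i hi)
      have h4 := abs_le.mp (hs j hj)
      have h5 : 0 ≤ (f i - (x - l)) / δ := div_nonneg (by linarith) hδ.le
      have h6 : 0 ≤ (f j - (x - l)) / δ := div_nonneg (by linarith) hδ.le
      have h7 := Nat.floor_le h5
      have h8 := Nat.floor_le h6
      have h9 := Nat.lt_floor_add_one ((f i - (x - l)) / δ)
      have h10 := Nat.lt_floor_add_one ((f j - (x - l)) / δ)
      have hij' : ⌊(f i - (x - l)) / δ⌋₊ = ⌊(f j - (x - l)) / δ⌋₊ := hij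
      rw [hij'] at h7 h9
      have h11 : |(f i - (x - l)) / δ - (f j - (x - l)) / δ| < 1 := by
        rw [abs_lt]
        constructor <;> linarith
      have h12 : (f i - (x - l)) / δ - (f j - (x - l)) / δ = (f i - f j) / δ := by
        ring
      rw [h12, abs_div, abs_of_pos hδ, div_lt_one hδ] at h11
      linarith
  rw [Finset.card_range] at h1
  have h2 : (s.card : ℝ) ≤ (⌊2 * l / δ⌋₊ : ℝ) + 1 := by exact_mod_cast h1
  have h3 : (⌊2 * l / δ⌋₊ : ℝ) ≤ 2 * l / δ := Nat.floor_le (by positivity)
  linarith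

end Pool.Agent.Helper72.RA
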